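import Pool.Agent.Helper37.SY.Spec

set_option autoImplicit false

/-!
# Swarm SY (MP_a8433b_co), part VTX
-/

noncomputable section

open MeasureTheory Set Filter Topology
open scoped ENNReal

namespace Pool.Agent.Helper45.SY.VTX

open Pool.Agent.Helper77.LM Helper63.LP Helper37.SY

lemma bary_single {n : ℕ} (i : Fin n) :
    bary (Pi.single i (1 : ℝ) : Fin n → ℝ) = Pi.single i.succ 1 := by
  have ht : tt (Pi.single i (1 : ℝ) : Fin n → ℝ) = 0 := by
    simp [tt]
  funext k
  refine Fin.cases ?_ (fun j => ?_) k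
  · rw [bary_zero, ht, Pi.single_eq_of_ne (Fin.succ_ne_zero i).symm]
  · rw [bary_succ, ht, add_zero, Pi.single_apply, Pi.single_apply]
    simp [Fin.succ_inj]

lemma Tl_single {m : ℕ} (i : Fin (m + 1)) :
    Tl (Equiv.swap (Fin.succ 0) i.succ) (Pi.single 0 (1 : ℝ) : Fin (m + 1) → ℝ) =
      Pi.single i 1 := by
  apply bary_injective
  rw [bary_Tl, bary_single, bary_single]
  funext k
  rw [Pi.single_apply, Pi.single_apply]
  have : (Equiv.swap (Fin.succ (0 : Fin (m + 1))) i.succ k = Fin.succ 0) ↔ k = i.succ := by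
    constructor
    · intro h
      have h2 := congrArg (Equiv.swap (Fin.succ (0 : Fin (m + 1))) i.succ) h
      rwa [Equiv.swap_apply_self, Equiv.swap_apply_left] at h2
    · rintro rfl
      rw [Equiv.swap_apply_right]
  simp only [this]

/-- `m + 1` points in general position in `{x_0 = x_1}` -/
def y0 (m : ℕ) : Fin (m + 1) → Fin (m + 1) → ℝ := fun i j =>
  if i = 0 then 0 else
    (1 / 4) * ((if j = i then 1 else 0) + (if i.val = 1 then (1 : ℝ) else 0) *
      (if j = 0 then 1 else 0))

lemma y0_nonneg (m : ℕ) (i j : Fin (m + 1)) : 0 ≤ y0 m i j := by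
  unfold y0
  split_ifs <;> norm_num

lemma y0_dot (m : ℕ) (i : Fin (m + 1)) (hi : i ≠ 0) (v : Fin (m + 1) → ℝ) :
    ∑ j, y0 m i j * v j = (1 / 4) * (v i + (if i.val = 1 then (1 : ℝ) else 0) * v 0) := by
  have : ∀ j, y0 m i j * v j = (1 / 4) * ((if j = i then v j else 0) +
      (if i.val = 1 then (1 : ℝ) else 0) * (if j = 0 then v j else 0)) := by
    intro j
    unfold y0
    rw [if_neg hi]
    split_ifs <;> ring
  simp only [this]
  rw [← Finset.mul_sum, Finset.sum_add_distrib, ← Finset.mul_sum]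
  simp

lemma y0_sum (m : ℕ) (i : Fin (m + 1)) : ∑ j, y0 m i j ≤ 1 / 2 := by
  by_cases hi : i = 0
  · have : ∀ j, y0 m i j = 0 := fun j => by simp [y0, hi]
    simp [this]
  · have h := y0_dot m i hi (fun _ => 1)
    simp only [mul_one] at h
    rw [h]
    split_ifs <;> norm_num

lemma W_cons {n : ℕ} (q : ℝ) (x : Fin n → ℝ) (y : Fin n → Fin n → ℝ) :
    W q (Fin.cons x y : Fin (n + 1) → Fin n → ℝ) =
      |(Matrix.of fun i j : Fin n => y i j - x j).det| ^ q := by
  simp [W]

lemma det_ctr (m : ℕ) (hm : 1 ≤ m) :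
    (Matrix.of fun i j : Fin (m + 1) => y0 m i j - ctr m j).det = 0 := by
  have h01 : (0 : Fin (m + 1)) ≠ ⟨1, by omega⟩ := by
    intro h
    have := congrArg Fin.val h
    simp at this
  apply Matrix.det_zero_of_column_eq h01
  intro i
  simp only [Matrix.of_apply, ctr]
  congr 1
  unfold y0
  by_cases hi : i = 0
  · simp [hi]
  · rw [if_neg hi, if_neg hi]
    have h3 : (0 : Fin (m + 1)) ≠ i := fun h => hi h.symm
    by_cases h1 : i.val = 1
    · have h2 : (⟨1, by omega⟩ : Fin (m + 1)) = i := Fin.ext h1.symm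
      rw [if_neg h3, if_pos h1, if_pos rfl, if_pos h2, if_neg h01.symm]
      norm_num
    · have h4 : (⟨1, by omega⟩ : Fin (m + 1)) ≠ i := by
        intro h; apply h1; rw [← h]
      simp [h1, h3, h4]

lemma det_vtx (m : ℕ) :
    (Matrix.of fun i j : Fin (m + 1) =>
      y0 m i j - (Pi.single 0 1 : Fin (m + 1) → ℝ) j).det ≠ 0 := by
  intro hdet
  rw [← Matrix.exists_mulVec_eq_zero_iff] at hdet
  obtain ⟨v, hv, h⟩ := hdet
  apply hv
  have hrow : ∀ i, ∑ j, y0 m i j * v j = v 0 := by
    intro i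
    have h1 := congrFun h i
    simp only [Matrix.mulVec, dotProduct, Matrix.of_apply, Pi.zero_apply, sub_mul,
      Finset.sum_sub_distrib] at h1
    have h2 : ∑ j, (Pi.single 0 1 : Fin (m + 1) → ℝ) j * v j = v 0 := by
      rw [Finset.sum_eq_single 0]
      · simp
      · intro b _ hb
        simp [hb]
      · simp
    rw [h2] at h1
    linarith
  have h0 : v 0 = 0 := by
    have := hrow 0
    simp [y0] at this
    exact this.symm
  funext i
  by_cases hi : i = 0
  · rw [hi, h0]; rfl
  · have h1 := hrow i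
    rw [y0_dot m i hi v, h0] at h1
    simp only [mul_zero, add_zero] at h1
    simp only [Pi.zero_apply]
    linarith

lemma y0_bary (m : ℕ) (i : Fin (m + 1)) (k : Fin (m + 1 + 1)) : 0 < bary (y0 m i) k := by
  have ht : 0 < tt (y0 m i) := by
    unfold tt
    apply div_pos
    · linarith [y0_sum m i]
    · positivity
  refine Fin.cases ?_ (fun j => ?_) k
  · rw [bary_zero]; exact ht
  · rw [bary_succ]; linarith [y0_nonneg m i j]

theorem main (hWPR : S_WPR) (hFCV : S_FCV) : S_VTX := by
  intro m q hm hq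
  obtain ⟨hcont, -, -, hconv⟩ := hWPR (m + 1) q hq
  obtain ⟨-, -, -, hsym, -, -⟩ := hFCV (m + 1) q hq
  have hF : ∀ i : Fin (m + 1), F q (Pi.single i 1 : Fin (m + 1) → ℝ) =
      F q (Pi.single 0 1 : Fin (m + 1) → ℝ) := fun i => by rw [← Tl_single i, hsym]
  have hS : IsCompact {y : Fin (m + 1) → Fin (m + 1) → ℝ | ∀ i, y i ∈ Dl (m + 1)} := by
    have := isCompact_univ_pi (s := fun _ : Fin (m + 1) => Dl (m + 1)) (fun _ => isCompact_Dl)
    convert this using 1
    ext y
    simp
  have hcx : ∀ x : Fin (m + 1) → ℝ,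
      Continuous fun y : Fin (m + 1) → Fin (m + 1) → ℝ => W q (Fin.cons x y) := by
    intro x
    apply hcont.comp
    refine continuous_pi fun i => ?_
    refine Fin.cases ?_ (fun j => ?_) i
    · simpa using continuous_const
    · simpa using continuous_apply j
  have hint : ∀ x : Fin (m + 1) → ℝ, IntegrableOn
      (fun y : Fin (m + 1) → Fin (m + 1) → ℝ => W q (Fin.cons x y))
      {y | ∀ i, y i ∈ Dl (m + 1)} := fun x => (hcx x).continuousOn.integrableOn_compact hS
  have hm0 : (0 : ℝ) < (m : ℝ) + 1 := by positivity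
  have hctr : (∑ i : Fin (m + 1), (1 / ((m : ℝ) + 1)) • (Pi.single i 1 : Fin (m + 1) → ℝ)) =
      ctr m := by
    funext j
    simp only [Finset.sum_apply, Pi.smul_apply, smul_eq_mul, ctr]
    rw [Finset.sum_eq_single j]
    · simp
    · intro b _ hb
      simp [Ne.symm hb]
    · simp
  have hg0 : ∀ y : Fin (m + 1) → Fin (m + 1) → ℝ,
      0 ≤ (∑ i : Fin (m + 1), (1 / ((m : ℝ) + 1)) * W q (Fin.cons (Pi.single i 1) y)) -
        W q (Fin.cons (ctr m) y) := by
    intro y
    have h1 := (hconv y).map_sum_le (t := Finset.univ)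
      (w := fun _ : Fin (m + 1) => 1 / ((m : ℝ) + 1))
      (p := fun i : Fin (m + 1) => (Pi.single i 1 : Fin (m + 1) → ℝ))
      (fun _ _ => by positivity) (by
        simp only [Finset.sum_const, Finset.card_univ, Fintype.card_fin, nsmul_eq_mul]
        push_cast
        field_simp) (fun _ _ => mem_univ _)
    simp only [hctr, smul_eq_mul] at h1
    linarith
  have hgpos : 0 < (∑ i : Fin (m + 1), (1 / ((m : ℝ) + 1)) *
      W q (Fin.cons (Pi.single i 1) (y0 m))) - W q (Fin.cons (ctr m) (y0 m)) := by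
    have h1 : W q (Fin.cons (ctr m) (y0 m)) = 0 := by
      rw [W_cons, det_ctr m hm, abs_zero, Real.zero_rpow (by linarith)]
    rw [h1, sub_zero]
    have hnn : ∀ i : Fin (m + 1), 0 ≤ (1 / ((m : ℝ) + 1)) *
        W q (Fin.cons (Pi.single i 1) (y0 m)) := by
      intro i
      rw [W_cons]
      positivity
    have h2 : 0 < (1 / ((m : ℝ) + 1)) * W q (Fin.cons (Pi.single 0 1) (y0 m)) := by
      rw [W_cons]
      have h3 : 0 < |(Matrix.of fun i j : Fin (m + 1) =>
          y0 m i j - (Pi.single 0 1 : Fin (m + 1) → ℝ) j).det| := abs_pos.mpr (det_vtx m)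
      have h4 := Real.rpow_pos_of_pos h3 q
      positivity
    exact lt_of_lt_of_le h2 (Finset.single_le_sum
      (f := fun i : Fin (m + 1) => (1 / ((m : ℝ) + 1)) *
        W q (Fin.cons (Pi.single i 1) (y0 m))) (fun i _ => hnn i) (Finset.mem_univ 0))
  have hgcont : Continuous fun y : Fin (m + 1) → Fin (m + 1) → ℝ =>
      (∑ i : Fin (m + 1), (1 / ((m : ℝ) + 1)) * W q (Fin.cons (Pi.single i 1) y)) -
        W q (Fin.cons (ctr m) y) := by
    apply Continuous.sub _ (hcx _)
    exact continuous_finsetSum _ fun i _ => continuous_const.mul (hcx _)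
  have hgint : ∫ y in {y : Fin (m + 1) → Fin (m + 1) → ℝ | ∀ i, y i ∈ Dl (m + 1)},
      ((∑ i : Fin (m + 1), (1 / ((m : ℝ) + 1)) * W q (Fin.cons (Pi.single i 1) y)) -
        W q (Fin.cons (ctr m) y)) = F q (Pi.single 0 1 : Fin (m + 1) → ℝ) - F q (ctr m) := by
    rw [integral_sub _ (hint _)]
    · rw [integral_finsetSum]
      · have h1 : ∀ i : Fin (m + 1), ∫ y in {y : Fin (m + 1) → Fin (m + 1) → ℝ |
            ∀ i, y i ∈ Dl (m + 1)}, (1 / ((m : ℝ) + 1)) * W q (Fin.cons (Pi.single i 1) y) =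
            (1 / ((m : ℝ) + 1)) * F q (Pi.single 0 1 : Fin (m + 1) → ℝ) := by
          intro i
          rw [integral_const_mul, ← hF i]
          rfl
        simp only [h1, Finset.sum_const, Finset.card_univ, Fintype.card_fin, nsmul_eq_mul]
        push_cast
        rw [← mul_assoc, mul_one_div_cancel hm0.ne', one_mul]
        rfl
      · intro i _
        exact (hint _).const_mul _
    · exact integrable_finsetSum _ fun i _ => (hint _).const_mul _
  have hpos : 0 < ∫ y in {y : Fin (m + 1) → Fin (m + 1) → ℝ | ∀ i, y i ∈ Dl (m + 1)},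
      ((∑ i : Fin (m + 1), (1 / ((m : ℝ) + 1)) * W q (Fin.cons (Pi.single i 1) y)) -
        W q (Fin.cons (ctr m) y)) := by
    rw [setIntegral_pos_iff_support_of_nonneg_ae]
    · set U : Set (Fin (m + 1) → Fin (m + 1) → ℝ) :=
        {y | (∀ i k, 0 < bary (y i) k) ∧ 0 < (∑ i : Fin (m + 1), (1 / ((m : ℝ) + 1)) *
          W q (Fin.cons (Pi.single i 1) y)) - W q (Fin.cons (ctr m) y)} with hU
      have hU1 : IsOpen (⋂ i, ⋂ k, {y : Fin (m + 1) → Fin (m + 1) → ℝ | 0 < bary (y i) k}) := by
        refine isOpen_iInter_of_finite fun i => isOpen_iInter_of_finite fun k => ?_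
        exact isOpen_lt continuous_const
          ((continuous_apply k).comp (continuous_bary.comp (continuous_apply i)))
      have hUo : IsOpen U := by
        have hUe : U = (⋂ i, ⋂ k, {y : Fin (m + 1) → Fin (m + 1) → ℝ | 0 < bary (y i) k}) ∩
            {y | 0 < (∑ i : Fin (m + 1), (1 / ((m : ℝ) + 1)) *
              W q (Fin.cons (Pi.single i 1) y)) - W q (Fin.cons (ctr m) y)} := by
          ext y
          simp [hU]
        rw [hUe]
        exact hU1.inter (isOpen_lt continuous_const hgcont)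
      have hUn : U.Nonempty := ⟨y0 m, fun i k => y0_bary m i k, hgpos⟩
      refine lt_of_lt_of_le (hUo.measure_pos volume hUn) (measure_mono ?_)
      rintro y ⟨hy1, hy2⟩
      exact ⟨hy2.ne', fun i k => (hy1 i k).le⟩
    · exact Filter.Eventually.of_forall hg0
    · exact hgcont.continuousOn.integrableOn_compact hS
  rw [hgint] at hpos
  linarith

end Pool.Agent.Helper45.SY.VTX
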